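import Mathlib

set_option autoImplicit false

namespace Pool.Agent.Results.MP_56e4d4_pr.EscapingGenerators

open Filter Topology

/-- Shannon entropy `H(ν) = -∑ ν(g) log ν(g)`. -/
noncomputable def entropy {G : Type} (ν : PMF G) : ℝ := ∑' g, Real.negMulLog (ν g).toReal

/-- The convolution power `μ^{*k}`: the law of `g_1 g_2 ⋯ g_k` with independent `g_i` of law `μ`. -/
noncomputable def cpow {G : Type} [Monoid G] (μ : PMF G) : ℕ → PMF G
  | 0 => PMF.pure 1
  | k + 1 => μ.bind fun g => (cpow μ k).map fun h => g * h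

/-! ### Convolution powers of mixtures of convolution powers -/

section Mix
variable {G : Type} [Monoid G]

theorem conv_cpow (μ : PMF G) (a b : ℕ) :
    ((cpow μ a).bind fun g => (cpow μ b).map fun h => g * h) = cpow μ (a + b) := by
  induction a with
  | zero =>
    rw [cpow, PMF.pure_bind, zero_add]
    simp only [one_mul]
    exact PMF.map_id _
  | succ a ih =>
    have h1 : a + 1 + b = (a + b) + 1 := by omega
    rw [h1, cpow, cpow, PMF.bind_bind, ← ih]
    congr 1
    funext g
    rw [PMF.bind_map, PMF.map_bind]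
    congr 1
    funext g'
    simp only [Function.comp_def, PMF.map_comp]
    congr 1
    funext h
    simp only [mul_assoc]

/-- The law of the sum of `k` independent variables of law `θ`. -/
noncomputable def spow (θ : PMF ℕ) : ℕ → PMF ℕ
  | 0 => PMF.pure 0
  | k + 1 => θ.bind fun a => (spow θ k).map fun b => a + b

theorem cpow_mix (μ : PMF G) (θ : PMF ℕ) (k : ℕ) :
    cpow (θ.bind (cpow μ)) k = (spow θ k).bind (cpow μ) := by
  induction k with
  | zero => rw [cpow, spow, PMF.pure_bind, cpow]
  | succ k ih =>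
    rw [cpow, spow, ih, PMF.bind_bind, PMF.bind_bind]
    congr 1
    funext a
    rw [PMF.bind_map]
    have h1 : (fun g => PMF.map (fun h => g * h) ((spow θ k).bind (cpow μ))) =
        fun g => (spow θ k).bind fun b => (cpow μ b).map fun h => g * h := by
      funext g
      rw [PMF.map_bind]
    rw [h1, PMF.bind_comm]
    congr 1
    funext b
    exact conv_cpow μ a b

end Mix

/-! ### A free semigroup -/

section Free
variable {G : Type} [Group G]

/-- The product of a word in two letters. -/
def word (gen : Bool → G) (w : List Bool) : G := (w.map gen).prod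

/-- A fair choice of a letter. -/
noncomputable def step (gen : Bool → G) : PMF G := (PMF.uniformOfFintype Bool).map gen

theorem word_cons (gen : Bool → G) (b : Bool) (w : List Bool) :
    word gen (b :: w) = gen b * word gen w := by simp [word]

theorem cpow_step_succ (gen : Bool → G) (k : ℕ) (x : G) :
    cpow (step gen) (k + 1) x = 2⁻¹ * cpow (step gen) k ((gen true)⁻¹ * x) +
      2⁻¹ * cpow (step gen) k ((gen false)⁻¹ * x) := by
  have hmap : ∀ (g : G) (ν : PMF G), (ν.map fun h => g * h) x = ν (g⁻¹ * x) := by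
    intro g ν
    rw [PMF.map_apply, tsum_eq_single (g⁻¹ * x)]
    · rw [if_pos (by group)]
    · intro y hy
      rw [if_neg]
      rintro rfl
      exact hy (by group)
  rw [cpow, step, PMF.bind_map, PMF.bind_apply, tsum_fintype]
  simp only [Fintype.univ_bool, Finset.mem_singleton, Bool.true_eq_false, not_false_eq_true,
    Finset.sum_insert, Finset.sum_singleton, PMF.uniformOfFintype_apply, Fintype.card_bool,
    Function.comp_apply, hmap]
  rfl

theorem cpow_step_word (gen : Bool → G) (hinj : Function.Injective (word gen)) (k : ℕ) :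
    (∀ w : List Bool, w.length = k → cpow (step gen) k (word gen w) = (2⁻¹) ^ k) ∧
    (∀ x : G, (∀ w : List Bool, w.length = k → word gen w ≠ x) → cpow (step gen) k x = 0) := by
  induction k with
  | zero =>
    constructor
    · intro w hw
      rw [List.length_eq_zero_iff] at hw
      subst hw
      simp [word, cpow]
    · intro x hx
      have h1 := hx [] rfl
      simp only [word, List.map_nil, List.prod_nil] at h1
      rw [cpow, PMF.pure_apply, if_neg (fun h => h1 h.symm)]
  | succ k ih =>
    obtain ⟨ih1, ih2⟩ := ih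
    constructor
    · intro w hw
      obtain ⟨b, w, rfl⟩ : ∃ b w', w = b :: w' := by
        cases w with
        | nil => simp at hw
        | cons b w => exact ⟨b, w, rfl⟩
      simp only [List.length_cons, Nat.add_right_cancel_iff] at hw
      have hz : ∀ c, c ≠ b → cpow (step gen) k ((gen c)⁻¹ * word gen (b :: w)) = 0 := by
        intro c hc
        apply ih2
        intro w' _ h
        have h2 : word gen (c :: w') = word gen (b :: w) := by
          rw [word_cons, h]; group
        have h3 := hinj h2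
        simp only [List.cons.injEq] at h3
        exact hc h3.1
      have hs : cpow (step gen) k ((gen b)⁻¹ * word gen (b :: w)) = (2⁻¹) ^ k := by
        rw [word_cons, inv_mul_cancel_left]
        exact ih1 w hw
      rw [cpow_step_succ]
      cases b
      · rw [hz true (by simp), hs, mul_zero, zero_add, pow_succ']
      · rw [hz false (by simp), hs, mul_zero, add_zero, pow_succ']
    · intro x hx
      rw [cpow_step_succ]
      have h : ∀ b, cpow (step gen) k ((gen b)⁻¹ * x) = 0 := by
        intro b
        apply ih2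
        intro w hw hwx
        apply hx (b :: w) (by simp [hw])
        rw [word_cons, hwx]; group
      rw [h true, h false]; simp

theorem mix_word (gen : Bool → G) (hinj : Function.Injective (word gen)) (θ : PMF ℕ)
    (w : List Bool) :
    (θ.bind (cpow (step gen))) (word gen w) = θ w.length * (2⁻¹) ^ w.length := by
  rw [PMF.bind_apply, tsum_eq_single w.length]
  · rw [(cpow_step_word gen hinj _).1 w rfl]
  · intro j hj
    rw [(cpow_step_word gen hinj j).2 (word gen w), mul_zero]
    intro w' hw' h
    exact hj (by rw [← hw', hinj h])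

theorem mix_not_word (gen : Bool → G) (hinj : Function.Injective (word gen)) (θ : PMF ℕ)
    (x : G) (hx : x ∉ Set.range (word gen)) : (θ.bind (cpow (step gen))) x = 0 := by
  rw [PMF.bind_apply, ENNReal.tsum_eq_zero]
  intro j
  rw [(cpow_step_word gen hinj j).2 x, mul_zero]
  intro w _ h
  exact hx ⟨w, h⟩

/-- Grouping the words by their length. -/
theorem tsum_words (c : ℕ → ℝ) (N : ℕ) (hc : ∀ j, N < j → c j = 0) :
    ∑' w : List Bool, c w.length = ∑ j ∈ Finset.range (N + 1), 2 ^ j * c j := by
  have hfin : ∀ j : ℕ, {w : List Bool | w.length = j}.Finite := fun j =>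
    List.finite_length_eq Bool j
  have hcard : ∀ j : ℕ, (hfin j).toFinset.card = 2 ^ j := by
    intro j
    have h1 : (hfin j).toFinset.card = Fintype.card (List.Vector Bool j) := by
      rw [← Set.ncard_eq_toFinset_card _ (hfin j), ← Nat.card_coe_set_eq, ← Nat.card_eq_fintype_card]
      rfl
    rw [h1, card_vector, Fintype.card_bool]
  classical
  rw [tsum_eq_sum (s := (Finset.range (N + 1)).biUnion fun j => (hfin j).toFinset)]
  · rw [Finset.sum_biUnion]
    · refine Finset.sum_congr rfl fun j _ => ?_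
      rw [Finset.sum_congr rfl (g := fun _ => c j)]
      · rw [Finset.sum_const, hcard, nsmul_eq_mul]; push_cast; ring
      · intro w hw
        rw [Set.Finite.mem_toFinset] at hw
        rw [show w.length = j from hw]
    · intro i _ j _ hij
      rw [Function.onFun, Finset.disjoint_left]
      intro w h1 h2
      rw [Set.Finite.mem_toFinset] at h1 h2
      exact hij (h1.symm.trans h2)
  · intro w hw
    apply hc
    by_contra hle
    apply hw
    rw [Finset.mem_biUnion]
    refine ⟨w.length, ?_, ?_⟩
    · rw [Finset.mem_range]; omega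
    · rw [Set.Finite.mem_toFinset]; rfl

/-- The entropy of a mixture of the convolution powers of the step distribution. -/
theorem entropy_mix (gen : Bool → G) (hinj : Function.Injective (word gen)) (θ : PMF ℕ)
    (N : ℕ) (hθ : ∀ j, N < j → θ j = 0) :
    entropy (θ.bind (cpow (step gen))) =
      ∑ j ∈ Finset.range (N + 1), Real.negMulLog (θ j).toReal +
        (∑ j ∈ Finset.range (N + 1), (j : ℝ) * (θ j).toReal) * Real.log 2 := by
  unfold entropy
  rw [← hinj.tsum_eq (f := fun g => Real.negMulLog ((θ.bind (cpow (step gen))) g).toReal)]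
  · have h1 : ∀ w : List Bool, Real.negMulLog ((θ.bind (cpow (step gen))) (word gen w)).toReal =
        (fun j : ℕ => Real.negMulLog ((θ j * (2⁻¹) ^ j).toReal)) w.length := by
      intro w
      rw [mix_word gen hinj]
    simp only [h1]
    rw [tsum_words (fun j : ℕ => Real.negMulLog ((θ j * (2⁻¹) ^ j).toReal)) N, Finset.sum_mul,
      ← Finset.sum_add_distrib]
    · refine Finset.sum_congr rfl fun j _ => ?_
      simp only [ENNReal.toReal_mul, ENNReal.toReal_pow, ENNReal.toReal_inv, ENNReal.toReal_ofNat]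
      rw [Real.negMulLog_mul]
      unfold Real.negMulLog
      rw [Real.log_pow, Real.log_inv]
      have h2 : (2 : ℝ) ^ j * (2⁻¹) ^ j = 1 := by rw [← mul_pow]; norm_num
      linear_combination (-(θ j).toReal * Real.log (θ j).toReal +
        (j : ℝ) * (θ j).toReal * Real.log 2) * h2
    · intro j hj
      simp [hθ j hj]
  · intro x hx
    by_contra hne
    apply hx
    simp only
    rw [mix_not_word gen hinj θ x hne]
    simp

end Free


/-! ### Means and entropies of the step numbers -/

/-- The mean of a law on `ℕ`. -/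
noncomputable def mean (θ : PMF ℕ) : ENNReal := ∑' j : ℕ, (j : ENNReal) * θ j

theorem int_bind {α : Type} (F : ℕ → ENNReal) (ν : PMF α) (f : α → PMF ℕ) :
    ∑' j, F j * (ν.bind f) j = ∑' a, ν a * ∑' j, F j * (f a) j := by
  simp only [PMF.bind_apply, ← ENNReal.tsum_mul_left]
  rw [ENNReal.tsum_comm]
  refine tsum_congr fun a => tsum_congr fun j => ?_
  ring

theorem int_pure (F : ℕ → ENNReal) (c : ℕ) : ∑' j, F j * (PMF.pure c : PMF ℕ) j = F c := by
  rw [tsum_eq_single c]
  · simp
  · intro j hj
    simp [PMF.pure_apply, hj]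

theorem int_map {α : Type} (F : ℕ → ENNReal) (ν : PMF α) (g : α → ℕ) :
    ∑' j, F j * (ν.map g) j = ∑' a, ν a * F (g a) := by
  have h : ν.map g = ν.bind (fun a => PMF.pure (g a)) := rfl
  rw [h, int_bind]
  refine tsum_congr fun a => ?_
  rw [int_pure]

theorem mean_spow (θ : PMF ℕ) (k : ℕ) : mean (spow θ k) = k * mean θ := by
  induction k with
  | zero =>
    unfold mean spow
    rw [int_pure]; simp
  | succ k ih =>
    unfold mean at ih ⊢
    rw [spow, int_bind]
    have h1 : ∀ a : ℕ, ∑' j : ℕ, (j : ENNReal) * ((spow θ k).map fun b => a + b) j =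
        a + k * ∑' j : ℕ, (j : ENNReal) * θ j := by
      intro a
      rw [int_map, ← ih]
      push_cast
      simp only [mul_add]
      rw [ENNReal.tsum_add, ENNReal.tsum_mul_right, PMF.tsum_coe, one_mul]
      congr 1
      exact tsum_congr fun j => mul_comm _ _
    simp only [h1, mul_add]
    rw [ENNReal.tsum_add, ENNReal.tsum_mul_right, PMF.tsum_coe, one_mul]
    push_cast
    rw [add_mul, one_mul, add_comm]
    congr 1
    exact tsum_congr fun j => mul_comm _ _

theorem spow_support (θ : PMF ℕ) (n : ℕ) (hθ : ∀ j, n < j → θ j = 0) (k : ℕ) :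
    ∀ j, k * n < j → spow θ k j = 0 := by
  induction k with
  | zero =>
    intro j hj
    rw [spow, PMF.pure_apply, if_neg (by omega)]
  | succ k ih =>
    intro j hj
    rw [spow, PMF.bind_apply, ENNReal.tsum_eq_zero]
    intro a
    by_cases ha : n < a
    · rw [hθ a ha, zero_mul]
    · have h2 : ((spow θ k).map fun b => a + b) j = 0 := by
        rw [PMF.map_apply, ENNReal.tsum_eq_zero]
        intro b
        by_cases hb : j = a + b
        · rw [if_pos hb]
          apply ih
          have : (k + 1) * n = k * n + n := by ring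
          omega
        · rw [if_neg hb]
      rw [h2, mul_zero]

theorem sum_toReal (θ : PMF ℕ) (N : ℕ) (hθ : ∀ j, N < j → θ j = 0) :
    ∑ j ∈ Finset.range (N + 1), (θ j).toReal = 1 := by
  have h : ∑' j, θ j = ∑ j ∈ Finset.range (N + 1), θ j := by
    apply tsum_eq_sum
    intro j hj
    apply hθ
    rw [Finset.mem_range] at hj
    omega
  rw [← ENNReal.toReal_sum (fun j _ => PMF.apply_ne_top θ j), ← h, PMF.tsum_coe,
    ENNReal.toReal_one]

theorem mean_toReal (θ : PMF ℕ) (N : ℕ) (hθ : ∀ j, N < j → θ j = 0) :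
    ∑ j ∈ Finset.range (N + 1), (j : ℝ) * (θ j).toReal = (mean θ).toReal := by
  unfold mean
  rw [tsum_eq_sum (s := Finset.range (N + 1)), ENNReal.toReal_sum]
  · refine Finset.sum_congr rfl fun j _ => ?_
    rw [ENNReal.toReal_mul, ENNReal.toReal_natCast]
  · intro j _
    exact ENNReal.mul_ne_top (ENNReal.natCast_ne_top j) (PMF.apply_ne_top θ j)
  · intro j hj
    rw [hθ j, mul_zero]
    rw [Finset.mem_range] at hj
    omega

theorem toReal_le_one' (θ : PMF ℕ) (j : ℕ) : (θ j).toReal ≤ 1 := by
  have := ENNReal.toReal_mono ENNReal.one_ne_top (PMF.coe_le_one θ j)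
  simpa using this

theorem ent_nonneg (θ : PMF ℕ) (N : ℕ) :
    0 ≤ ∑ j ∈ Finset.range (N + 1), Real.negMulLog (θ j).toReal :=
  Finset.sum_nonneg fun j _ => Real.negMulLog_nonneg ENNReal.toReal_nonneg (toReal_le_one' θ j)

theorem ent_le (θ : PMF ℕ) (N : ℕ) (hθ : ∀ j, N < j → θ j = 0) :
    ∑ j ∈ Finset.range (N + 1), Real.negMulLog (θ j).toReal ≤ Real.log (N + 1) := by
  have hN : (0 : ℝ) < (N : ℝ) + 1 := by positivity
  have h1 : ∀ j ∈ Finset.range (N + 1), Real.negMulLog (θ j).toReal ≤
      ((N : ℝ) + 1)⁻¹ - (θ j).toReal + (θ j).toReal * Real.log (N + 1) := by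
    intro j _
    rcases (ENNReal.toReal_nonneg (a := θ j)).eq_or_lt with h0 | h0
    · rw [← h0]; simp; positivity
    · have h2 := Real.log_le_sub_one_of_pos (x := ((θ j).toReal * (N + 1))⁻¹) (by positivity)
      rw [Real.log_inv, Real.log_mul h0.ne' hN.ne'] at h2
      unfold Real.negMulLog
      have h3 : (θ j).toReal * ((θ j).toReal * ((N : ℝ) + 1))⁻¹ = ((N : ℝ) + 1)⁻¹ := by
        field_simp
      have h4 := mul_le_mul_of_nonneg_left h2 h0.le
      rw [mul_sub, h3] at h4
      linarith
  refine (Finset.sum_le_sum h1).trans ?_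
  rw [Finset.sum_add_distrib, Finset.sum_sub_distrib, ← Finset.sum_mul, sum_toReal θ N hθ,
    Finset.sum_const, Finset.card_range, nsmul_eq_mul]
  push_cast
  rw [mul_inv_cancel₀ hN.ne']
  linarith

/-- The asymptotic entropy of a mixture of convolution powers of the step distribution. -/
theorem tendsto_entropy {G : Type} [Group G] (gen : Bool → G)
    (hinj : Function.Injective (word gen)) (θ : PMF ℕ) (n : ℕ) (hn : 1 ≤ n)
    (hθ : ∀ j, n < j → θ j = 0) :
    Tendsto (fun k : ℕ => entropy (cpow (θ.bind (cpow (step gen))) k) / k) atTop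
      (𝓝 ((mean θ).toReal * Real.log 2)) := by
  have hn' : (0 : ℝ) < n := by exact_mod_cast hn
  have h1 : ∀ k : ℕ, entropy (cpow (θ.bind (cpow (step gen))) k) =
      ∑ j ∈ Finset.range (k * n + 1), Real.negMulLog (spow θ k j).toReal +
        k * ((mean θ).toReal * Real.log 2) := by
    intro k
    have hs := spow_support θ n hθ k
    rw [cpow_mix, entropy_mix gen hinj (spow θ k) (k * n) hs, mean_toReal _ _ hs, mean_spow,
      ENNReal.toReal_mul, ENNReal.toReal_natCast]
    ring
  have h2 : Tendsto (fun k : ℕ => (∑ j ∈ Finset.range (k * n + 1),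
      Real.negMulLog (spow θ k j).toReal) / k) atTop (𝓝 0) := by
    have h3 : Tendsto (fun k : ℕ => Real.log ((k : ℝ) * n + 1) ^ 1 /
        ((n : ℝ)⁻¹ * ((k : ℝ) * n + 1) + -(n : ℝ)⁻¹)) atTop (𝓝 0) := by
      have h4 : Tendsto (fun k : ℕ => (k : ℝ) * n + 1) atTop atTop :=
        tendsto_atTop_add_const_right _ _ (tendsto_natCast_atTop_atTop.atTop_mul_const hn')
      exact (Real.tendsto_pow_log_div_mul_add_atTop (n : ℝ)⁻¹ (-(n : ℝ)⁻¹) 1
        (inv_ne_zero hn'.ne')).comp h4
    refine tendsto_of_tendsto_of_tendsto_of_le_of_le tendsto_const_nhds h3 ?_ ?_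
    · intro k
      exact div_nonneg (ent_nonneg _ _) (Nat.cast_nonneg k)
    · intro k
      have h5 := ent_le (spow θ k) (k * n) (spow_support θ n hθ k)
      have h6 : (n : ℝ)⁻¹ * ((k : ℝ) * n + 1) + -(n : ℝ)⁻¹ = k := by
        field_simp; ring
      simp only [h6, pow_one]
      push_cast at h5
      exact div_le_div_of_nonneg_right h5 (Nat.cast_nonneg k)
  have h7 : Tendsto (fun k : ℕ => (∑ j ∈ Finset.range (k * n + 1),
      Real.negMulLog (spow θ k j).toReal) / k + (mean θ).toReal * Real.log 2) atTop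
      (𝓝 (0 + (mean θ).toReal * Real.log 2)) := h2.add_const _
  rw [zero_add] at h7
  refine h7.congr' ?_
  filter_upwards [eventually_ge_atTop 1] with k hk
  have hk' : (k : ℝ) ≠ 0 := by positivity
  rw [h1]
  field_simp

/-- One step with probability `1 - 1/(m+2)`, and `m + 2` steps with probability `1/(m+2)`. -/
noncomputable def theta (m : ℕ) : PMF ℕ :=
  (PMF.uniformOfFintype (Fin (m + 2))).map fun i => if i = 0 then m + 2 else 1

theorem theta_one (m : ℕ) : theta m 1 = ((m : ENNReal) + 1) / ((m : ENNReal) + 2) := by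
  unfold theta
  rw [PMF.map_apply, tsum_fintype, Fin.sum_univ_succ]
  simp only [PMF.uniformOfFintype_apply, Fintype.card_fin, Fin.succ_ne_zero, if_false, if_true,
    Finset.sum_const, Finset.card_univ, nsmul_eq_mul]
  rw [if_neg (by omega)]
  push_cast
  rw [zero_add, ENNReal.div_eq_inv_mul, mul_comm]

theorem theta_top (m : ℕ) : theta m (m + 2) = ((m : ENNReal) + 2)⁻¹ := by
  unfold theta
  rw [PMF.map_apply, tsum_fintype, Fin.sum_univ_succ]
  simp only [PMF.uniformOfFintype_apply, Fintype.card_fin, Fin.succ_ne_zero, if_false, if_true,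
    Finset.sum_const, Finset.card_univ, nsmul_eq_mul]
  rw [if_neg (by omega)]
  push_cast
  simp

theorem theta_other (m j : ℕ) (h1 : j ≠ 1) (h2 : j ≠ m + 2) : theta m j = 0 := by
  unfold theta
  rw [PMF.map_apply, ENNReal.tsum_eq_zero]
  intro i
  by_cases hi : i = 0
  · rw [if_pos hi, if_neg h2]
  · rw [if_neg hi, if_neg h1]

theorem mean_theta (m : ℕ) : (mean (theta m)).toReal = 2 - 1 / ((m : ℝ) + 2) := by
  rw [← mean_toReal (theta m) (m + 2) (fun j hj => theta_other m j (by omega) (by omega))]
  rw [Finset.sum_eq_add_of_mem 1 (m + 2) (by simp) (by simp) (by omega)]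
  · rw [theta_one, theta_top]
    simp only [ENNReal.toReal_div, ENNReal.toReal_inv]
    rw [ENNReal.toReal_add (by simp) (by simp), ENNReal.toReal_add (by simp) (by simp)]
    simp only [ENNReal.toReal_natCast, ENNReal.toReal_one, ENNReal.toReal_ofNat]
    push_cast
    field_simp
    ring
  · intro c _ hc
    rw [theta_other m c hc.1 hc.2]
    simp

/-! ### The modular group -/

open scoped MatrixGroups
open UpperHalfPlane MeasureTheory

/-- The map `SL(2,ℤ) → PSL(2,ℝ)`. -/
def red : SL(2, ℤ) →* PSL(2, ℝ) :=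
  (QuotientGroup.mk' (Subgroup.center SL(2, ℝ))).comp
    (Matrix.SpecialLinearGroup.map (Int.castRingHom ℝ))

theorem mk_eq_iff (x y : SL(2, ℝ)) :
    (QuotientGroup.mk x : PSL(2, ℝ)) = QuotientGroup.mk y ↔ y = x ∨ y = -x := by
  rw [QuotientGroup.eq, Matrix.SpecialLinearGroup.mem_center_iff]
  constructor
  · rintro ⟨r, hr, h⟩
    rw [Fintype.card_fin] at hr
    have hr' : (r - 1) * (r + 1) = 0 := by linear_combination hr
    have hy : y = x * (x⁻¹ * y) := by group
    rcases mul_eq_zero.1 hr' with h1 | h1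
    · left
      have h2 : r = 1 := by linarith
      have h3 : x⁻¹ * y = 1 := by
        apply Subtype.ext
        change ((x⁻¹ * y : SL(2, ℝ)) : Matrix (Fin 2) (Fin 2) ℝ) = 1
        rw [← h, h2, map_one]
      rw [hy, h3, mul_one]
    · right
      have h2 : r = -1 := by linarith
      have h3 : x⁻¹ * y = -1 := by
        apply Subtype.ext
        change ((x⁻¹ * y : SL(2, ℝ)) : Matrix (Fin 2) (Fin 2) ℝ) = -1
        rw [← h, h2, map_neg, map_one]
      rw [hy, h3, mul_neg, mul_one]
  · rintro (rfl | rfl)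
    · exact ⟨1, by simp, by simp⟩
    · refine ⟨-1, by simp, ?_⟩
      rw [map_neg, map_one, mul_neg, inv_mul_cancel]
      rfl

/-- The generators of the semigroup, in `SL(2,ℤ)`. -/
def genZ : Bool → SL(2, ℤ)
  | true => ModularGroup.T
  | false => ⟨!![1, 0; 1, 1], by simp⟩

theorem genZ_true_zero (A : SL(2, ℤ)) (j : Fin 2) : (genZ true * A) 0 j = A 0 j + A 1 j := by
  rw [Matrix.SpecialLinearGroup.coe_mul, Matrix.mul_apply, Fin.sum_univ_two]
  simp [genZ, ModularGroup.T]

theorem genZ_true_one (A : SL(2, ℤ)) (j : Fin 2) : (genZ true * A) 1 j = A 1 j := by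
  rw [Matrix.SpecialLinearGroup.coe_mul, Matrix.mul_apply, Fin.sum_univ_two]
  simp [genZ, ModularGroup.T]

theorem genZ_false_zero (A : SL(2, ℤ)) (j : Fin 2) : (genZ false * A) 0 j = A 0 j := by
  rw [Matrix.SpecialLinearGroup.coe_mul, Matrix.mul_apply, Fin.sum_univ_two]
  simp [genZ]

theorem genZ_false_one (A : SL(2, ℤ)) (j : Fin 2) : (genZ false * A) 1 j = A 0 j + A 1 j := by
  rw [Matrix.SpecialLinearGroup.coe_mul, Matrix.mul_apply, Fin.sum_univ_two]
  simp [genZ]

theorem wordZ_nonneg (w : List Bool) : ∀ i j, 0 ≤ (word genZ w) i j := by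
  induction w with
  | nil =>
    intro i j
    fin_cases i <;> fin_cases j <;> simp [word]
  | cons b w ih =>
    intro i j
    rw [word_cons]
    cases b <;> fin_cases i
    · change 0 ≤ (genZ false * word genZ w) 0 j
      rw [genZ_false_zero]; exact ih _ _
    · change 0 ≤ (genZ false * word genZ w) 1 j
      rw [genZ_false_one]; exact add_nonneg (ih _ _) (ih _ _)
    · change 0 ≤ (genZ true * word genZ w) 0 j
      rw [genZ_true_zero]; exact add_nonneg (ih _ _) (ih _ _)
    · change 0 ≤ (genZ true * word genZ w) 1 j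
      rw [genZ_true_one]; exact ih _ _

theorem det_eq (A : SL(2, ℤ)) : A 0 0 * A 1 1 - A 0 1 * A 1 0 = 1 := by
  have := A.2
  rwa [Matrix.det_fin_two] at this

theorem true_ne_false (A B : SL(2, ℤ)) (hA : ∀ i j, 0 ≤ A i j) (hB : ∀ i j, 0 ≤ B i j) :
    genZ true * A ≠ genZ false * B := by
  intro h
  have h1 := det_eq (genZ true * A)
  have e : ∀ j, (genZ true * A) 0 j = (genZ true * A) 1 j := by
    intro j
    have e1 : (genZ true * A) 0 j = B 0 j := by rw [h, genZ_false_zero]
    have e2 : (genZ true * A) 1 j = B 0 j + B 1 j := by rw [h, genZ_false_one]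
    rw [genZ_true_zero] at e1
    rw [genZ_true_one] at e2
    rw [genZ_true_zero, genZ_true_one]
    have := hA 0 j
    have := hB 1 j
    omega
  rw [e 0, e 1] at h1
  have : (genZ true * A) 1 0 * (genZ true * A) 1 1 - (genZ true * A) 1 1 * (genZ true * A) 1 0
    = 0 := by ring
  omega

theorem true_ne_one (A : SL(2, ℤ)) (hA : ∀ i j, 0 ≤ A i j) : genZ true * A ≠ 1 := by
  intro h
  have e1 : (genZ true * A) 0 1 = 0 := by rw [h]; simp
  have e2 : (genZ true * A) 1 1 = 1 := by rw [h]; simp
  rw [genZ_true_zero] at e1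
  rw [genZ_true_one] at e2
  have := hA 0 1
  omega

theorem false_ne_one (A : SL(2, ℤ)) (hA : ∀ i j, 0 ≤ A i j) : genZ false * A ≠ 1 := by
  intro h
  have e1 : (genZ false * A) 1 0 = 0 := by rw [h]; simp
  have e2 : (genZ false * A) 0 0 = 1 := by rw [h]; simp
  rw [genZ_false_one] at e1
  rw [genZ_false_zero] at e2
  have := hA 1 0
  omega

theorem wordZ_injective : Function.Injective (word genZ) := by
  intro w
  induction w with
  | nil =>
    intro w' h
    cases w' with
    | nil => rfl
    | cons b w' =>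
      exfalso
      rw [word_cons] at h
      have h' : genZ b * word genZ w' = 1 := by rw [← h]; simp [word]
      cases b
      · exact false_ne_one _ (wordZ_nonneg w') h'
      · exact true_ne_one _ (wordZ_nonneg w') h'
  | cons b w ih =>
    intro w' h
    cases w' with
    | nil =>
      exfalso
      rw [word_cons] at h
      have h' : genZ b * word genZ w = 1 := by rw [h]; simp [word]
      cases b
      · exact false_ne_one _ (wordZ_nonneg w) h'
      · exact true_ne_one _ (wordZ_nonneg w) h'
    | cons b' w' =>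
      rw [word_cons, word_cons] at h
      cases b <;> cases b'
      · rw [ih (mul_left_cancel h)]
      · exact (true_ne_false _ _ (wordZ_nonneg w') (wordZ_nonneg w) h.symm).elim
      · exact (true_ne_false _ _ (wordZ_nonneg w) (wordZ_nonneg w') h).elim
      · rw [ih (mul_left_cancel h)]

/-- The generators `z ↦ z + 1` and `z ↦ z / (z + 1)` of the modular group. -/
def gen (b : Bool) : PSL(2, ℝ) := red (genZ b)

theorem word_gen (w : List Bool) : word gen w = red (word genZ w) := by
  unfold word
  rw [map_list_prod, List.map_map]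
  rfl

theorem word_injective : Function.Injective (word gen) := by
  intro w w' h
  rw [word_gen, word_gen] at h
  apply wordZ_injective
  have h1 := (mk_eq_iff _ _).1 h
  have hc : ∀ i j, ((word genZ w' i j : ℤ) : ℝ) = ((word genZ w i j : ℤ) : ℝ) ∨
      ((word genZ w' i j : ℤ) : ℝ) = -((word genZ w i j : ℤ) : ℝ) := by
    intro i j
    rcases h1 with h1 | h1
    · left
      exact congrArg (fun A : SL(2, ℝ) => A i j) h1
    · right
      have := congrArg (fun A : SL(2, ℝ) => A i j) h1
      simpa using this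
  rw [eq_comm]
  ext i j
  rcases hc i j with h2 | h2
  · exact_mod_cast h2
  · have h3 : (word genZ w' i j : ℤ) = -(word genZ w i j) := by exact_mod_cast h2
    have := wordZ_nonneg w i j
    have := wordZ_nonneg w' i j
    omega

/-- The modular group `PSL(2,ℤ)` in `PSL(2,ℝ)`. -/
def modularSubgroup : Subgroup PSL(2, ℝ) := red.range

theorem isClosed_of_subset (A : Set PSL(2, ℝ)) (hA : A ⊆ (modularSubgroup : Set PSL(2, ℝ))) :
    IsClosed A := by
  have hq : IsQuotientMap (QuotientGroup.mk : SL(2, ℝ) → PSL(2, ℝ)) :=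
    QuotientGroup.isQuotientMap_mk _
  rw [← hq.isClosed_preimage]
  have hemb : IsClosedEmbedding (Matrix.SpecialLinearGroup.map (n := Fin 2) (Int.castRingHom ℝ)) :=
    Topology.IsClosedEmbedding.specialLinearGroup_map Int.isClosedEmbedding_coe_real
  have h1 : (QuotientGroup.mk : SL(2, ℝ) → PSL(2, ℝ)) ⁻¹' A =
      (Matrix.SpecialLinearGroup.map (n := Fin 2) (Int.castRingHom ℝ)) '' {B | red B ∈ A} := by
    ext x
    constructor
    · intro hx
      obtain ⟨B, hB⟩ := hA hx
      have hB' : (QuotientGroup.mk (Matrix.SpecialLinearGroup.map (Int.castRingHom ℝ) B) :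
        PSL(2, ℝ)) = QuotientGroup.mk x := hB
      rcases (mk_eq_iff _ _).1 hB' with h | h
      · refine ⟨B, ?_, h.symm⟩
        change red B ∈ A
        rw [hB]; exact hx
      · refine ⟨-B, ?_, ?_⟩
        · change red (-B) ∈ A
          have h2 : red (-B) = red B := by
            refine (mk_eq_iff _ _).2 (Or.inr ?_)
            ext i j
            simp
          rw [h2, hB]; exact hx
        · rw [h]
          ext i j
          simp
    · rintro ⟨B, hB, rfl⟩
      exact hB
  rw [h1]
  exact hemb.isClosedMap _ (isClosed_discrete _)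

theorem eventually_eq (a : ℕ → PSL(2, ℝ)) (ha : ∀ k, a k ∈ modularSubgroup) (g : PSL(2, ℝ))
    (h : Tendsto a atTop (𝓝 g)) : g ∈ modularSubgroup ∧ ∀ᶠ k in atTop, a k = g := by
  have hg : g ∈ (modularSubgroup : Set PSL(2, ℝ)) :=
    (isClosed_of_subset _ le_rfl).mem_of_tendsto h (Eventually.of_forall ha)
  refine ⟨hg, ?_⟩
  have hcl : IsClosed ((modularSubgroup : Set PSL(2, ℝ)) \ {g}) :=
    isClosed_of_subset _ Set.sdiff_subset
  have hmem : ((modularSubgroup : Set PSL(2, ℝ)) \ {g})ᶜ ∈ 𝓝 g :=
    hcl.isOpen_compl.mem_nhds (by simp)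
  filter_upwards [h hmem] with k hk
  by_contra hne
  exact hk ⟨ha k, hne⟩

theorem discrete_modular : DiscreteTopology modularSubgroup := by
  rw [discreteTopology_iff_isOpen_singleton]
  rintro ⟨g, hg⟩
  have hcl : IsClosed ((modularSubgroup : Set PSL(2, ℝ)) \ {g}) :=
    isClosed_of_subset _ Set.sdiff_subset
  refine ⟨_, hcl.isOpen_compl, ?_⟩
  ext ⟨x, hx⟩
  simp only [Set.mem_preimage, Set.mem_compl_iff, Set.mem_sdiff, Set.mem_singleton_iff, not_and,
    not_not, Subtype.mk.injEq]
  exact ⟨fun h => h hx, fun h _ => h⟩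

theorem closure_gen : Subgroup.closure (Set.range gen) = modularSubgroup := by
  apply le_antisymm
  · rw [Subgroup.closure_le]
    rintro _ ⟨b, rfl⟩
    exact ⟨genZ b, rfl⟩
  · rintro _ ⟨A, rfl⟩
    have hA : A ∈ Subgroup.closure {ModularGroup.S, ModularGroup.T} := by
      rw [SpecialLinearGroup.SL2Z_generators]; trivial
    have hle : Subgroup.closure {ModularGroup.S, ModularGroup.T} ≤
        (Subgroup.closure (Set.range gen)).comap red := by
      rw [Subgroup.closure_le]
      have hT : ModularGroup.T ∈ (Subgroup.closure (Set.range gen)).comap red :=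
        Subgroup.subset_closure ⟨true, rfl⟩
      have hL : genZ false ∈ (Subgroup.closure (Set.range gen)).comap red :=
        Subgroup.subset_closure ⟨false, rfl⟩
      rintro x (rfl | rfl)
      · have hL' : genZ false = ModularGroup.T * ModularGroup.S * ModularGroup.T := by
          apply Subtype.ext
          rw [Matrix.SpecialLinearGroup.coe_mul, Matrix.SpecialLinearGroup.coe_mul,
            ModularGroup.coe_S, ModularGroup.coe_T]
          simp [genZ]
        have hS : ModularGroup.S = ModularGroup.T⁻¹ * genZ false * ModularGroup.T⁻¹ := by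
          rw [hL']; group
        rw [hS]
        exact mul_mem (mul_mem (inv_mem hT) hL) (inv_mem hT)
      · exact hT
    exact hle hA

/-- `Γ` is a lattice: a discrete subgroup of `PSL(2,ℝ)` of finite covolume, i.e. the translates
by `Γ` of some measurable set of finite hyperbolic area cover the hyperbolic plane. -/
def IsLattice (Γ : Subgroup PSL(2, ℝ)) : Prop :=
  DiscreteTopology Γ ∧ ∃ F : Set ℍ, MeasurableSet F ∧ volume F < ⊤ ∧
    ∀ z : ℍ, ∃ g : SL(2, ℝ), (QuotientGroup.mk g : PSL(2, ℝ)) ∈ Γ ∧ g • z ∈ F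

theorem lintegral_strip :
    ∫⁻ y in Set.Ioi (1 / 2 : ℝ), (((1 / ‖y‖₊) ^ 2 : NNReal) : ENNReal) < ⊤ := by
  have h1 : IntegrableOn (fun t : ℝ => t ^ (-2 : ℝ)) (Set.Ioi (1 / 2)) :=
    integrableOn_Ioi_rpow_of_lt (by norm_num) (by norm_num)
  refine lt_of_le_of_lt ?_ h1.setLIntegral_lt_top
  refine setLIntegral_mono' measurableSet_Ioi fun y hy => ?_
  have hy' : (0 : ℝ) < y := lt_trans (by norm_num) (Set.mem_Ioi.1 hy)
  rw [← ENNReal.ofReal_coe_nnreal]
  apply ENNReal.ofReal_le_ofReal
  rw [NNReal.coe_pow, NNReal.coe_div, NNReal.coe_one, coe_nnnorm, Real.norm_of_nonneg hy'.le,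
    Real.rpow_neg hy'.le, Real.rpow_two, one_div, inv_pow]

theorem volume_fd : volume ModularGroup.fd < ⊤ := by
  rw [volume_eq_lintegral]
  have hsub : (UpperHalfPlane.coe '' ModularGroup.fd : Set ℂ) ⊆
      Complex.measurableEquivRealProd ⁻¹' (Set.Icc (-(1 / 2)) (1 / 2) ×ˢ Set.Ioi (1 / 2)) := by
    rintro _ ⟨z, hz, rfl⟩
    obtain ⟨h1, h2⟩ := hz
    simp only [Set.mem_preimage, Set.mem_prod, Complex.measurableEquivRealProd_apply, Set.mem_Icc,
      Set.mem_Ioi]
    rw [abs_le] at h2
    rw [Complex.normSq_apply] at h1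
    refine ⟨⟨by simpa using h2.1, by simpa using h2.2⟩, ?_⟩
    have h3 := z.im_pos
    have h4 : (z : ℂ).re = z.re := rfl
    have h5 : (z : ℂ).im = z.im := rfl
    rw [h4, h5] at h1
    rw [h5]
    nlinarith [h2.1, h2.2]
  refine lt_of_le_of_lt (lintegral_mono_set hsub) ?_
  have h6 := Complex.volume_preserving_equiv_real_prod.setLIntegral_comp_preimage_emb
    Complex.measurableEquivRealProd.measurableEmbedding
    (fun p : ℝ × ℝ => (((1 / ‖p.2‖₊) ^ 2 : NNReal) : ENNReal))
    (Set.Icc (-(1 / 2)) (1 / 2) ×ˢ Set.Ioi (1 / 2))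
  have h7 : (fun z : ℂ => (((1 / ‖z.im‖₊) ^ 2 : NNReal) : ENNReal)) =
      fun z => (fun p : ℝ × ℝ => (((1 / ‖p.2‖₊) ^ 2 : NNReal) : ENNReal))
        (Complex.measurableEquivRealProd z) := rfl
  rw [h7, h6, Measure.volume_eq_prod, ← Measure.prod_restrict]
  have h8 := lintegral_prod_mul (μ := volume.restrict (Set.Icc (-(1 / 2) : ℝ) (1 / 2)))
    (ν := volume.restrict (Set.Ioi (1 / 2 : ℝ))) (f := fun _ => 1)
    (g := fun y : ℝ => (((1 / ‖y‖₊) ^ 2 : NNReal) : ENNReal)) (by fun_prop) (by fun_prop)
  simp only [one_mul] at h8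
  rw [h8]
  refine ENNReal.mul_lt_top ?_ lintegral_strip
  simp

theorem lattice_modular : IsLattice modularSubgroup := by
  refine ⟨discrete_modular, ModularGroup.fd, ?_, volume_fd, fun z => ?_⟩
  · have h1 : Measurable fun z : ℍ => Complex.normSq (z : ℂ) := by fun_prop
    have h2 : Measurable fun z : ℍ => |z.re| := by
      have : Measurable fun z : ℍ => z.re := Complex.measurable_re.comp measurable_coe
      fun_prop
    exact (measurableSet_le measurable_const h1).inter (measurableSet_le h2 measurable_const)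
  · obtain ⟨g, hg⟩ := ModularGroup.exists_smul_mem_fd z
    exact ⟨Matrix.SpecialLinearGroup.map (Int.castRingHom ℝ) g, ⟨g, rfl⟩, hg⟩

/-- Geometric (Chabauty) convergence of sets: every point of `B` is a limit of points of the
`A n`, and every limit of points of a subsequence of the `A n` is in `B`. -/
def GeomConv (A : ℕ → Set PSL(2, ℝ)) (B : Set PSL(2, ℝ)) : Prop :=
  (∀ b ∈ B, ∃ a : ℕ → PSL(2, ℝ), (∀ n, a n ∈ A n) ∧ Tendsto a atTop (𝓝 b)) ∧
  (∀ ψ : ℕ → ℕ, StrictMono ψ → ∀ a : ℕ → PSL(2, ℝ), (∀ k, a k ∈ A (ψ k)) →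
    ∀ g, Tendsto a atTop (𝓝 g) → g ∈ B)

/-- The data of the problem. -/
structure IsData (Γs : ℕ → Subgroup PSL(2, ℝ)) (Γ : Subgroup PSL(2, ℝ))
    (Ss : ℕ → Set PSL(2, ℝ)) (S : Set PSL(2, ℝ)) (μs : ℕ → PMF PSL(2, ℝ)) (μ : PMF PSL(2, ℝ)) :
    Prop where
  fuchsian : ∀ n, DiscreteTopology (Γs n)
  lattice : IsLattice Γ
  conv : GeomConv (fun n => (Γs n : Set PSL(2, ℝ))) Γ
  finite_Ss : ∀ n, (Ss n).Finite
  finite_S : S.Finite
  closure_Ss : ∀ n, Subgroup.closure (Ss n) = Γs n
  closure_S : Subgroup.closure S = Γ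
  conv_S : GeomConv Ss S
  support_μs : ∀ n, (μs n).support ⊆ Ss n
  support_μ : μ.support ⊆ S
  weights : ∀ s : ℕ → PSL(2, ℝ), (∀ n, s n ∈ Ss n) → ∀ t ∈ S, Tendsto s atTop (𝓝 t) →
    Tendsto (fun n => μs n (s n)) atTop (𝓝 (μ t))

/-- `h` is the asymptotic (Avez) entropy of `μ`. -/
def IsAvez (μ : PMF PSL(2, ℝ)) (h : ℝ) : Prop :=
  Tendsto (fun k : ℕ => entropy (cpow μ k) / k) atTop (𝓝 h)

/-- The words of length `k` in the two generators. -/
def words (k : ℕ) : Set PSL(2, ℝ) := {x | ∃ w : List Bool, w.length = k ∧ word gen w = x}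

theorem words_one : words 1 = Set.range gen := by
  ext x
  constructor
  · rintro ⟨w, hw, rfl⟩
    obtain ⟨b, rfl⟩ := List.length_eq_one_iff.1 hw
    exact ⟨b, by simp [word]⟩
  · rintro ⟨b, rfl⟩
    exact ⟨[b], rfl, by simp [word]⟩

theorem words_finite (k : ℕ) : (words k).Finite := by
  have : words k = word gen '' {w | w.length = k} := by
    ext x
    exact ⟨fun ⟨w, h1, h2⟩ => ⟨w, h1, h2⟩, fun ⟨w, h1, h2⟩ => ⟨w, h1, h2⟩⟩
  rw [this]
  exact (List.finite_length_eq Bool k).image _

theorem words_subset (k : ℕ) : words k ⊆ (modularSubgroup : Set PSL(2, ℝ)) := by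
  rintro x ⟨w, _, rfl⟩
  rw [word_gen]
  exact ⟨_, rfl⟩

theorem words_disjoint {k l : ℕ} {x : PSL(2, ℝ)} (h1 : x ∈ words k) (h2 : x ∈ words l) :
    k = l := by
  obtain ⟨w, hw, h3⟩ := h1
  obtain ⟨w', hw', h4⟩ := h2
  have := word_injective (h3.trans h4.symm)
  rw [← hw, ← hw', this]

theorem cpow_one {G : Type} [Monoid G] (μ : PMF G) : cpow μ 1 = μ := by
  rw [cpow]
  simp only [cpow, PMF.pure_map, mul_one]
  exact PMF.bind_pure μ

theorem support_mix (θ : PMF ℕ) :
    (θ.bind (cpow (step gen))).support = {x | ∃ j, θ j ≠ 0 ∧ x ∈ words j} := by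
  ext x
  rw [PMF.mem_support_iff]
  constructor
  · intro hx
    by_cases hr : x ∈ Set.range (word gen)
    · obtain ⟨w, rfl⟩ := hr
      rw [mix_word gen word_injective] at hx
      exact ⟨w.length, left_ne_zero_of_mul hx, w, rfl, rfl⟩
    · exact (hx (mix_not_word gen word_injective θ x hr)).elim
  · rintro ⟨j, hj, w, hw, rfl⟩
    rw [mix_word gen word_injective, hw]
    exact mul_ne_zero hj (pow_ne_zero _ (by simp))

theorem step_eq_mix : step gen = (PMF.pure 1).bind (cpow (step gen)) := by
  rw [PMF.pure_bind, cpow_one]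

theorem theta_one_tendsto : Tendsto (fun n : ℕ => theta n 1) atTop (𝓝 1) := by
  rw [← ENNReal.tendsto_toReal_iff (fun n => PMF.apply_ne_top _ _) ENNReal.one_ne_top]
  have h1 : ∀ n : ℕ, (theta n 1).toReal = 1 - 1 / ((n : ℝ) + 2) := by
    intro n
    rw [theta_one, ENNReal.toReal_div, ENNReal.toReal_add (by simp) (by simp),
      ENNReal.toReal_add (by simp) (by simp)]
    simp only [ENNReal.toReal_natCast, ENNReal.toReal_one, ENNReal.toReal_ofNat]
    field_simp
    ring
  simp only [h1, ENNReal.toReal_one]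
  have h2 : Tendsto (fun n : ℕ => 1 / ((n : ℝ) + 2)) atTop (𝓝 0) := by
    have := (tendsto_const_div_atTop_nhds_zero_nat (1 : ℝ)).comp (tendsto_add_atTop_nat 2)
    refine this.congr fun n => ?_
    simp
  simpa using h2.const_sub 1

/-- **Theorem.** There are a lattice `Γ` in `PSL(2,ℝ)` (the modular group), a finite generating set
`S` of `Γ`, finite generating sets `Ss n` of the same group `Γ` converging geometrically to `S`,
and probability measures `μs n`, `μ` with supports exactly `Ss n`, `S` as in the problem (with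
`Γ_n = Γ` for all `n`), such that `h(μ) = log 2`, while the asymptotic entropies `h(μs n)` converge
to `2 log 2`. -/
theorem result :
    ∃ (Γ : Subgroup PSL(2, ℝ)) (Ss : ℕ → Set PSL(2, ℝ)) (S : Set PSL(2, ℝ))
      (μs : ℕ → PMF PSL(2, ℝ)) (μ : PMF PSL(2, ℝ)) (h : ℕ → ℝ),
      IsLattice Γ ∧ IsData (fun _ => Γ) Γ Ss S μs μ ∧
      (∀ n, (μs n).support = Ss n) ∧ μ.support = S ∧
      (∀ n, IsAvez (μs n) (h n)) ∧ IsAvez μ (Real.log 2) ∧
      Tendsto h atTop (𝓝 (2 * Real.log 2)) ∧ ¬ Tendsto h atTop (𝓝 (Real.log 2)) := by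
  have hmem1 : ∀ n, Set.range gen ⊆ words 1 ∪ words (n + 2) := fun n => by
    rw [← words_one]; exact Set.subset_union_left
  have hsupp : ∀ n : ℕ, ((theta n).bind (cpow (step gen))).support = words 1 ∪ words (n + 2) := by
    intro n
    rw [support_mix]
    ext x
    constructor
    · rintro ⟨j, hj, hx⟩
      by_cases h1 : j = 1
      · subst h1; exact Or.inl hx
      · by_cases h2 : j = n + 2
        · subst h2; exact Or.inr hx
        · exact (hj (theta_other n j h1 h2)).elim
    · rintro (hx | hx)
      · refine ⟨1, ?_, hx⟩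
        rw [theta_one]
        exact ENNReal.div_ne_zero.2 ⟨by simp, by simp⟩
      · refine ⟨n + 2, ?_, hx⟩
        rw [theta_top]
        simp
  have hsupp1 : (step gen).support = words 1 := by
    rw [step_eq_mix, support_mix]
    ext x
    constructor
    · rintro ⟨j, hj, hx⟩
      rw [PMF.pure_apply] at hj
      by_cases h1 : j = 1
      · subst h1; exact hx
      · simp [h1] at hj
    · intro hx
      exact ⟨1, by simp, hx⟩
  have hlim : Tendsto (fun n : ℕ => (mean (theta n)).toReal * Real.log 2) atTop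
      (𝓝 (2 * Real.log 2)) := by
    have h2 : Tendsto (fun n : ℕ => 1 / ((n : ℝ) + 2)) atTop (𝓝 0) := by
      have := (tendsto_const_div_atTop_nhds_zero_nat (1 : ℝ)).comp (tendsto_add_atTop_nat 2)
      refine this.congr fun n => ?_
      simp
    have h3 : Tendsto (fun n : ℕ => 2 - 1 / ((n : ℝ) + 2)) atTop (𝓝 2) := by
      simpa using h2.const_sub 2
    simp only [mean_theta]
    exact h3.mul_const _
  refine ⟨modularSubgroup, fun n => words 1 ∪ words (n + 2), words 1,
    fun n => (theta n).bind (cpow (step gen)), step gen,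
    fun n => (mean (theta n)).toReal * Real.log 2, lattice_modular, ?_, hsupp, hsupp1, ?_, ?_,
    hlim, ?_⟩
  · refine ⟨fun _ => discrete_modular, lattice_modular, ⟨?_, ?_⟩,
      fun n => (words_finite 1).union (words_finite _), words_finite 1, ?_, ?_, ⟨?_, ?_⟩,
      fun n => (hsupp n).le, hsupp1.le, ?_⟩
    · intro b hb
      exact ⟨fun _ => b, fun _ => hb, tendsto_const_nhds⟩
    · intro ψ _ a ha g hg
      exact (eventually_eq a ha g hg).1
    · intro n
      apply le_antisymm
      · rw [Subgroup.closure_le]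
        exact Set.union_subset (words_subset _) (words_subset _)
      · rw [← closure_gen]
        exact Subgroup.closure_mono (hmem1 n)
    · rw [words_one, closure_gen]
    · intro b hb
      exact ⟨fun _ => b, fun _ => Or.inl hb, tendsto_const_nhds⟩
    · intro ψ hψ a ha g hg
      have ha' : ∀ k, a k ∈ modularSubgroup := fun k => by
        rcases ha k with h | h
        · exact words_subset _ h
        · exact words_subset _ h
      obtain ⟨N, hN⟩ := eventually_atTop.1 (eventually_eq a ha' g hg).2
      have h1 := ha N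
      have h2 := ha (N + 1)
      rw [hN N le_rfl] at h1
      rw [hN (N + 1) (by omega)] at h2
      rcases h1 with h1 | h1
      · exact h1
      · rcases h2 with h2 | h2
        · exact h2
        · have h3 := words_disjoint h1 h2
          have h4 : ψ N < ψ (N + 1) := hψ (Nat.lt_add_one N)
          omega
    · intro s hs t ht hst
      have hs' : ∀ k, s k ∈ modularSubgroup := fun k => by
        rcases hs k with h | h
        · exact words_subset _ h
        · exact words_subset _ h
      have hev := (eventually_eq s hs' t hst).2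
      obtain ⟨w, hw, rfl⟩ := ht
      have h1 : (step gen) (word gen w) = 2⁻¹ := by
        have h2 := (cpow_step_word gen word_injective 1).1 w hw
        rw [cpow_one, pow_one] at h2
        exact h2
      rw [h1]
      have h3 : Tendsto (fun n : ℕ => theta n 1 * 2⁻¹) atTop (𝓝 (1 * 2⁻¹)) :=
        ENNReal.Tendsto.mul_const theta_one_tendsto (Or.inl one_ne_zero)
      rw [one_mul] at h3
      refine h3.congr' ?_
      filter_upwards [hev] with n hn
      rw [hn, mix_word gen word_injective, hw, pow_one]
  · intro n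
    exact tendsto_entropy gen word_injective (theta n) (n + 2) (by omega)
      (fun j hj => theta_other n j (by omega) (by omega))
  · have h1 := tendsto_entropy gen word_injective (PMF.pure 1) 1 le_rfl
      (fun j hj => by rw [PMF.pure_apply, if_neg (by omega)])
    rw [← step_eq_mix] at h1
    have h2 : (mean (PMF.pure 1)).toReal = 1 := by
      unfold mean
      rw [int_pure]; simp
    rw [h2, one_mul] at h1
    exact h1
  · intro hbad
    have h1 := tendsto_nhds_unique hlim hbad
    have h2 : 0 < Real.log 2 := Real.log_pos (by norm_num)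
    linarith

end Pool.Agent.Results.MP_56e4d4_pr.EscapingGenerators
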